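import Pool.Agent.W276.GE.Close

/-!
# Almost all endomorphisms of projective space have no preperiodic points of bounded degree

For all `N, D ≥ 1` and all `d ≥ d₀(N, D)`: among the systems of `N + 1` integral forms of degree `d`
in `N + 1` variables with coefficients of absolute value at most `H`, all but a proportion `O(1/H)`
define endomorphisms of `P^N`, and all but a proportion `O(1/H^N)` of these endomorphisms increase
the height of every point of `P^N(K)`, for every number field `K` of degree at most `D`. Such an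
endomorphism has no preperiodic point over any number field of degree at most `D`. The exponent `N`
is sharp.
-/

set_option autoImplicit false

open MvPolynomial Height Filter

namespace Pool.Agent.Results.MP_13bc7b_nt.AlmostAllEndomorphisms

/-- The systems of `N + 1` forms of degree `d` in `N + 1` variables with integral coefficients of
absolute value at most `H`. -/
def Sys (N d H : ℕ) : Set (Fin (N + 1) → MvPolynomial (Fin (N + 1)) ℤ) :=
  {F | ∀ i, (F i).IsHomogeneous d ∧ ∀ m, |(F i).coeff m| ≤ H}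

/-- The self-map of `K^(N+1)` given by the system `F`. -/
noncomputable def act (K : Type) [Field K] {N : ℕ} (F : Fin (N + 1) → MvPolynomial (Fin (N + 1)) ℤ)
    (x : Fin (N + 1) → K) : Fin (N + 1) → K :=
  fun i => aeval x (F i)

/-- `F` defines an endomorphism of `P^N`: no common zero in `ℂ^(N+1)` except `0`. -/
def IsMorphism {N : ℕ} (F : Fin (N + 1) → MvPolynomial (Fin (N + 1)) ℤ) : Prop :=
  ∀ x : Fin (N + 1) → ℂ, act ℂ F x = 0 → x = 0

/-- `F` increases the height of every point of `P^N(K)`, for every number field `K` of degree at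
most `D`. -/
def IncreasesHeights {N : ℕ} (D : ℕ) (F : Fin (N + 1) → MvPolynomial (Fin (N + 1)) ℤ) : Prop :=
  ∀ (K : Type) [Field K] [NumberField K], Module.finrank ℚ K ≤ D →
    ∀ x : Fin (N + 1) → K, x ≠ 0 → mulHeight x < mulHeight (act K F x)

/-- Over some number field `K` of degree at most `D` some point of `P^N(K)` is preperiodic: two
different iterates of it are equal, i.e. proportional as vectors. -/
def HasPreperiodicPoint {N : ℕ} (D : ℕ) (F : Fin (N + 1) → MvPolynomial (Fin (N + 1)) ℤ) : Prop :=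
  ∃ (K : Type) (_ : Field K) (_ : NumberField K), Module.finrank ℚ K ≤ D ∧
    ∃ x : Fin (N + 1) → K, x ≠ 0 ∧ ∃ m n : ℕ, m < n ∧ ∃ c : K, c ≠ 0 ∧
      (act K F)^[n] x = c • (act K F)^[m] x

open Pool.Agent.W276.GE

theorem act_eq (K : Type) [Field K] {N d H : ℕ} {F : Fin (N + 1) → MvPolynomial (Fin (N + 1)) ℤ}
    (hF : F ∈ Sys N d H) (x : Fin (N + 1) → K) :
    act K F x = fun i => ev (cf d (F i)) x := by
  funext i
  exact aeval_eq_ev (hF i).1 x

theorem isMorphism_iff {N d H : ℕ} {F : Fin (N + 1) → MvPolynomial (Fin (N + 1)) ℤ}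
    (hF : F ∈ Sys N d H) : IsMorphism F ↔ NoZero fun i => cf d (F i) := by
  unfold IsMorphism NoZero
  refine forall_congr' fun x => ?_
  rw [act_eq ℂ hF x, funext_iff]
  rfl

theorem act_ne_zero {K : Type} [Field K] [NumberField K] {N d H : ℕ}
    {F : Fin (N + 1) → MvPolynomial (Fin (N + 1)) ℤ} (hF : F ∈ Sys N d H) (hm : IsMorphism F)
    {x : Fin (N + 1) → K} (hx : x ≠ 0) : act K F x ≠ 0 := by
  rw [act_eq K hF x]
  exact image_ne_zero ((isMorphism_iff hF).mp hm) (Classical.arbitrary (K →+* ℂ)) hx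

/-- **Almost all endomorphisms of `P^N` of large degree have no preperiodic point of degree at most
`D`.** -/
theorem result (N D : ℕ) (hN : 1 ≤ N) (hD : 1 ≤ D) : ∃ d₀ : ℕ, ∀ d : ℕ, d₀ ≤ d →
    (∀ H : ℕ, (Sys N d H).ncard = (2 * H + 1) ^ ((N + 1) * (N + d).choose N)) ∧
    (∀ H : ℕ, ∀ F ∈ Sys N d H, IsMorphism F → IncreasesHeights D F → ¬ HasPreperiodicPoint D F) ∧
    (∃ C : ℝ, 0 < C ∧ ∀ H : ℕ, 1 ≤ H →
      ({F | F ∈ Sys N d H ∧ ¬ IsMorphism F}.ncard : ℝ) ≤
        C * (H : ℝ) ^ ((N + 1) * (N + d).choose N - 1) ∧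
      ({F | F ∈ Sys N d H ∧ IsMorphism F ∧ ¬ IncreasesHeights D F}.ncard : ℝ) ≤
        C * (H : ℝ) ^ ((N + 1) * (N + d).choose N - N) ∧
      (H : ℝ) ^ ((N + 1) * (N + d).choose N - N) ≤
        ({F | F ∈ Sys N d H ∧ IsMorphism F ∧ HasPreperiodicPoint 1 F}.ncard : ℝ)) ∧
    Tendsto (fun H : ℕ =>
      ({F | F ∈ Sys N d H ∧ IsMorphism F ∧ ¬ HasPreperiodicPoint D F}.ncard : ℝ) /
        ((Sys N d H).ncard : ℝ)) atTop (nhds 1) := by
  classical
  obtain ⟨d₀, hd₀⟩ := closed N D hN hD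
  refine ⟨max d₀ 1, fun d hd => ?_⟩
  have hd1 : 1 ≤ d := le_trans (le_max_right _ _) hd
  obtain ⟨C₁, hC₁, h₁⟩ := hd₀ d (le_trans (le_max_left _ _) hd)
  obtain ⟨C₂, h₂⟩ := W216.GE.deg (N + 1) d (by omega) hd1
  have hM := card_E N d
  have hcard : ∀ H : ℕ, (Sys N d H).ncard = (2 * H + 1) ^ ((N + 1) * (N + d).choose N) :=
    fun H => card_PS N d H
  have hdyn : ∀ H : ℕ, ∀ F ∈ Sys N d H, IsMorphism F → IncreasesHeights D F →
      ¬ HasPreperiodicPoint D F := by
    rintro H F hF hm hinc ⟨K, i1, i2, hK, x, hx, m, n, hmn, c, hc, h⟩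
    exact no_preper (act K F) (fun y hy => act_ne_zero hF hm hy) (fun y hy => hinc K hK y hy) x hx
      m n hmn c hc h
  set Q := (N + 1) * (N + d).choose N with hQ
  -- not a morphism
  have hA : ∀ H : ℕ, 1 ≤ H → ({F | F ∈ Sys N d H ∧ ¬ IsMorphism F}.ncard : ℝ) ≤
      C₂ * (H : ℝ) ^ (Q - 1) := by
    intro H hH
    have h3 := ncard_PS N d H (fun F => ¬ IsMorphism F) (fun G => ¬ NoZero G)
      (fun F hF => not_congr (isMorphism_iff hF))
    have h4 := h₂ H hH
    rw [hM] at h4
    have h5 : {F | F ∈ Sys N d H ∧ ¬ IsMorphism F}.ncard ≤ C₂ * H ^ (Q - 1) := by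
      rw [hQ]
      exact h3.trans_le h4
    exact_mod_cast h5
  -- heights
  have hB : ∀ H : ℕ, 1 ≤ H →
      ({F | F ∈ Sys N d H ∧ IsMorphism F ∧ ¬ IncreasesHeights D F}.ncard : ℝ) ≤
        C₁ * (H : ℝ) ^ (Q - N) := by
    intro H hH
    have h3 := ncard_PS N d H (fun F => IsMorphism F ∧ ¬ IncreasesHeights D F)
      (fun G => NoZero G ∧ Bad D G) (by
        intro F hF
        rw [isMorphism_iff (H := H) hF]
        refine and_congr_right fun _ => ?_
        unfold IncreasesHeights Bad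
        push Not
        constructor
        · rintro ⟨K, i1, i2, hK, x, hx, h⟩
          rw [act_eq K (H := H) hF x] at h
          exact ⟨K, i1, i2, hK, x, hx, h⟩
        · rintro ⟨K, i1, i2, hK, x, hx, h⟩
          rw [← act_eq K (H := H) hF x] at h
          exact ⟨K, i1, i2, hK, x, hx, h⟩)
    have h4 := h₁ H hH
    rw [hM] at h4
    rw [hQ]
    have h5 : ({F | F ∈ Sys N d H ∧ IsMorphism F ∧ ¬ IncreasesHeights D F}.ncard : ℝ) =
        ({G : Fin (N + 1) → E (N + 1) d → ℤ | G ∈ Fb (N + 1) d H ∧ NoZero G ∧ Bad D G}.ncard : ℝ) := by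
      exact_mod_cast h3
    rw [h5]
    exact h4
  -- lower bound
  have hL : ∀ H : ℕ, 1 ≤ H → (H : ℝ) ^ (Q - N) ≤
      ({F | F ∈ Sys N d H ∧ IsMorphism F ∧ HasPreperiodicPoint 1 F}.ncard : ℝ) := by
    intro H hH
    have h3 := ncard_PS N d H
      (fun F => IsMorphism F ∧ ∀ j, j ≠ 0 → ev (cf d (F j)) (Pi.single 0 1 : Fin (N + 1) → ℤ) = 0)
      (fun G => NoZero G ∧ ∀ j, j ≠ 0 → ev (G j) (Pi.single 0 1 : Fin (N + 1) → ℤ) = 0) (by
        intro F hF
        rw [isMorphism_iff (H := H) hF])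
    have h4 := W376.GE.lb N d H hd1 hH
    rw [hM] at h4
    have h5 : H ^ (Q - N) ≤ {F | F ∈ PS N d H ∧ IsMorphism F ∧
        ∀ j, j ≠ 0 → ev (cf d (F j)) (Pi.single 0 1 : Fin (N + 1) → ℤ) = 0}.ncard := by
      rw [h3, hQ]
      exact h4
    have h6 : {F | F ∈ PS N d H ∧ IsMorphism F ∧
        ∀ j, j ≠ 0 → ev (cf d (F j)) (Pi.single 0 1 : Fin (N + 1) → ℤ) = 0}.ncard ≤
        {F | F ∈ Sys N d H ∧ IsMorphism F ∧ HasPreperiodicPoint 1 F}.ncard := by
      refine Set.ncard_le_ncard ?_ ((PS_finite N d H).subset fun F hF => hF.1)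
      rintro F ⟨hF, hm, hj⟩
      refine ⟨hF, hm, ℚ, inferInstance, inferInstance, by simp, Pi.single 0 1, ?_, 0, 1,
        Nat.one_pos, ?_⟩
      · intro h
        have := congrFun h 0
        simp at this
      · have hne : act ℚ F (Pi.single 0 1) ≠ 0 := act_ne_zero (H := H) hF hm (by
          intro h
          have := congrFun h 0
          simp at this)
        have hj' : ∀ j, j ≠ 0 → act ℚ F (Pi.single 0 1) j = 0 := by
          intro j hj0
          rw [act_eq ℚ (H := H) hF]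
          have h7 := congrArg (Int.castRingHom ℚ) (hj j hj0)
          rw [ev_map, map_zero] at h7
          have h8 : (fun i => (Int.castRingHom ℚ) ((Pi.single 0 1 : Fin (N + 1) → ℤ) i)) =
              (Pi.single 0 1 : Fin (N + 1) → ℚ) := by
            funext i
            by_cases hi : i = 0
            · subst hi; simp
            · simp [Pi.single_eq_of_ne hi]
          rw [h8] at h7
          exact h7
        refine ⟨act ℚ F (Pi.single 0 1) 0, ?_, ?_⟩
        · intro h0
          apply hne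
          funext j
          by_cases hj0 : j = 0
          · subst hj0; exact h0
          · exact hj' j hj0
        · rw [Function.iterate_one, Function.iterate_zero, id]
          funext j
          by_cases hj0 : j = 0
          · subst hj0; simp
          · rw [hj' j hj0, Pi.smul_apply, Pi.single_eq_of_ne hj0, smul_zero]
    exact_mod_cast h5.trans h6
  have hQ1 : 1 ≤ Q := Nat.mul_pos (by omega) (Nat.choose_pos (by omega))
  refine ⟨hcard, hdyn, ⟨max C₁ (C₂ : ℝ), lt_max_of_lt_left hC₁, fun H hH => ⟨?_, ?_, hL H hH⟩⟩, ?_⟩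
  · exact (hA H hH).trans (by gcongr; exact le_max_right _ _)
  · exact (hB H hH).trans (by gcongr; exact le_max_left _ _)
  · -- proportion
    have hupper : ∀ H : ℕ, 1 ≤ H → ({F | F ∈ Sys N d H ∧ IsMorphism F ∧
        ¬ HasPreperiodicPoint D F}.ncard : ℝ) / ((Sys N d H).ncard : ℝ) ≤ 1 := by
      intro H _
      refine div_le_one_of_le₀ ?_ (Nat.cast_nonneg _)
      have h0 : {F | F ∈ Sys N d H ∧ IsMorphism F ∧ ¬ HasPreperiodicPoint D F}.ncard ≤
          (Sys N d H).ncard := Set.ncard_le_ncard (fun F hF => hF.1) (PS_finite N d H)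
      exact_mod_cast h0
    have hlower : ∀ H : ℕ, 1 ≤ H → 1 - (C₁ + C₂) / H ≤
        ({F | F ∈ Sys N d H ∧ IsMorphism F ∧ ¬ HasPreperiodicPoint D F}.ncard : ℝ) /
          ((Sys N d H).ncard : ℝ) := by
      intro H hH
      have hH1 : (1 : ℝ) ≤ H := by exact_mod_cast hH
      have hS : ((Sys N d H).ncard : ℝ) = (2 * H + 1 : ℝ) ^ Q := by
        rw [hcard]; push_cast; rfl
      have hSpos : 0 < ((Sys N d H).ncard : ℝ) := by rw [hS]; positivity
      have hsub : Sys N d H ⊆ {F | F ∈ Sys N d H ∧ IsMorphism F ∧ ¬ HasPreperiodicPoint D F} ∪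
          ({F | F ∈ Sys N d H ∧ ¬ IsMorphism F} ∪
            {F | F ∈ Sys N d H ∧ IsMorphism F ∧ ¬ IncreasesHeights D F}) := by
        intro F hF
        by_cases h1 : IsMorphism F
        · by_cases h2 : IncreasesHeights D F
          · exact Or.inl ⟨hF, h1, hdyn H F hF h1 h2⟩
          · exact Or.inr (Or.inr ⟨hF, h1, h2⟩)
        · exact Or.inr (Or.inl ⟨hF, h1⟩)
      have hfin : ∀ p : (Fin (N + 1) → MvPolynomial (Fin (N + 1)) ℤ) → Prop,
          {F | F ∈ Sys N d H ∧ p F}.Finite := fun p => (PS_finite N d H).subset fun F hF => hF.1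
      have h3 : (Sys N d H).ncard ≤
          {F | F ∈ Sys N d H ∧ IsMorphism F ∧ ¬ HasPreperiodicPoint D F}.ncard +
          ({F | F ∈ Sys N d H ∧ ¬ IsMorphism F}.ncard +
            {F | F ∈ Sys N d H ∧ IsMorphism F ∧ ¬ IncreasesHeights D F}.ncard) :=
        (Set.ncard_le_ncard hsub ((hfin _).union ((hfin _).union (hfin _)))).trans
          ((Set.ncard_union_le _ _).trans (Nat.add_le_add_left (Set.ncard_union_le _ _) _))
      have h4 : ((Sys N d H).ncard : ℝ) ≤
          ({F | F ∈ Sys N d H ∧ IsMorphism F ∧ ¬ HasPreperiodicPoint D F}.ncard : ℝ) +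
          (C₂ * (H : ℝ) ^ (Q - 1) + C₁ * (H : ℝ) ^ (Q - N)) := by
        have h5 : ((Sys N d H).ncard : ℝ) ≤
          ({F | F ∈ Sys N d H ∧ IsMorphism F ∧ ¬ HasPreperiodicPoint D F}.ncard : ℝ) +
          (({F | F ∈ Sys N d H ∧ ¬ IsMorphism F}.ncard : ℝ) +
            ({F | F ∈ Sys N d H ∧ IsMorphism F ∧ ¬ IncreasesHeights D F}.ncard : ℝ)) := by
          exact_mod_cast h3
        linarith [hA H hH, hB H hH]
      have h6 : (H : ℝ) ^ (Q - N) ≤ (H : ℝ) ^ (Q - 1) := pow_le_pow_right₀ hH1 (by omega)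
      have h7 : (H : ℝ) ^ (Q - 1) ≤ ((Sys N d H).ncard : ℝ) / H := by
        rw [le_div_iff₀ (by linarith), ← pow_succ, Nat.sub_add_cancel hQ1, hS]
        exact pow_le_pow_left₀ (by linarith) (by linarith) _
      rw [le_div_iff₀ hSpos]
      have h8 : C₂ * (H : ℝ) ^ (Q - 1) + C₁ * (H : ℝ) ^ (Q - N) ≤
          (C₁ + C₂) / H * ((Sys N d H).ncard : ℝ) := by
        calc C₂ * (H : ℝ) ^ (Q - 1) + C₁ * (H : ℝ) ^ (Q - N)
            ≤ C₂ * (H : ℝ) ^ (Q - 1) + C₁ * (H : ℝ) ^ (Q - 1) := by gcongr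
          _ = (C₁ + C₂) * (H : ℝ) ^ (Q - 1) := by ring
          _ ≤ (C₁ + C₂) * (((Sys N d H).ncard : ℝ) / H) := by gcongr
          _ = _ := by ring
      linarith
    have hlim : Tendsto (fun H : ℕ => 1 - (C₁ + C₂) / (H : ℝ)) atTop (nhds 1) := by
      have h9 : Tendsto (fun H : ℕ => (C₁ + C₂) / (H : ℝ)) atTop (nhds 0) :=
        tendsto_const_div_atTop_nhds_zero_nat _
      have h10 := (tendsto_const_nhds (x := (1 : ℝ)) (f := atTop (α := ℕ))).sub h9
      rwa [sub_zero] at h10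
    refine tendsto_of_tendsto_of_tendsto_of_le_of_le' hlim tendsto_const_nhds ?_ ?_
    · filter_upwards [eventually_ge_atTop 1] with H hH using hlower H hH
    · filter_upwards [eventually_ge_atTop 1] with H hH using hupper H hH

end Pool.Agent.Results.MP_13bc7b_nt.AlmostAllEndomorphisms
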