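import Pool.Agent.W275.ND.All

/-!
# MP_13bc7b_nt: 100% of the endomorphisms of `P^N` have no preperiodic point of small degree

Let `k` be a number field, `N ≥ 1` and `d ≥ 2`. Almost all endomorphisms of `P^N` of degree `d` with
coefficients in the ring of integers of `k` (ordered by the size of their coefficients) have no
preperiodic point at all over any extension `K` of `k` of degree less than `d`. For `N = 1` and
`d = 2` this is sharp: every map has points of period two over a quadratic extension.

Proof. The types of the preperiodic points of degree at most `D` are bounded for 100% of the maps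
(`OneHundredPercent`). A positive proportion of exceptions would give a preperiodic point `x` of the
generic map over an extension of degree less than `d` of the field of rational functions over `k`
(ultraproducts and Hilbert irreducibility). Embed this field in `ℚ_p`, `p` split in `k`, so that the
generic map becomes `p`-adically close to `(p x_0^d + x_1^d, ..., p x_{N-1}^d + x_N^d, p x_N^d)`:
as the ramification index is less than `d`, all orbits are attracted by the fixed point near
`(1, 0, ..., 0)`, so an iterate of `x` is a fixed point. Embed it again, so that the generic map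
becomes close to `(x_1^d, ..., x_N^d, p x_0^d)`: there is no fixed point of ramification less than `d`.

Parts were proved by helpers 131, 327, 902, 930 (subtasks of helper275), and by the helpers of
the projects UB (`OneHundredPercent`) and `H294UB` (`PositiveProportion`).
-/

set_option autoImplicit false

open MvPolynomial NumberField Filter Topology

namespace Pool.Agent.Results.MP_13bc7b_nt.NoLowDegreePoints

/-- The self-map of `K^(N+1)` given by forms `F` with coefficients in the ring of integers of `k`. -/
noncomputable def selfMap {k : Type} [Field k] [NumberField k] (K : Type) [Field K] [Algebra k K]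
    {N : ℕ} (F : Fin (N + 1) → MvPolynomial (Fin (N + 1)) (𝓞 k)) (x : Fin (N + 1) → K) :
    Fin (N + 1) → K :=
  fun i => eval x (map ((algebraMap k K).comp (algebraMap (𝓞 k) k)) (F i))

/-- `F` defines an endomorphism of `P^N` over `k`, and it has no preperiodic point in `P^N(K)` for
all number fields `K` containing `k` with `[K : k] < D`. -/
def NoPreperiodicPoints {k : Type} [Field k] [NumberField k] {N : ℕ} (D : ℕ)
    (F : Fin (N + 1) → MvPolynomial (Fin (N + 1)) (𝓞 k)) : Prop :=
  (∀ x : Fin (N + 1) → AlgebraicClosure k, selfMap (AlgebraicClosure k) F x = 0 → x = 0) ∧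
    ∀ (K : Type) [Field K] [NumberField K] [Algebra k K], Module.finrank k K < D →
      ∀ x : Fin (N + 1) → K, x ≠ 0 → ¬ ∃ m n : ℕ, m < n ∧ ∃ c : K, c ≠ 0 ∧
        (selfMap K F)^[n] x = c • (selfMap K F)^[m] x

/-- The systems of `N + 1` forms of degree `d` in `N + 1` variables over the ring of integers of `k`
all of whose coefficients have coordinates of absolute value at most `H` in the integral basis `ω`. -/
def Box {k : Type} [Field k] [NumberField k] {J : Type} (ω : Module.Basis J ℤ (𝓞 k)) (N d H : ℕ) :
    Set (Fin (N + 1) → MvPolynomial (Fin (N + 1)) (𝓞 k)) :=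
  {F | ∀ i, (F i).IsHomogeneous d ∧ ∀ μ j, |ω.repr (coeff μ (F i)) j| ≤ (H : ℤ)}

/-- **100% of the endomorphisms of `P^N` of degree `d` have no preperiodic point of degree less
than `d`.** For `N ≥ 1`, `d ≥ 2`, a number field `k` and an integral basis `ω` of `k`, the
proportion of the systems `F` in the box of size `H` which define endomorphisms of `P^N` without
preperiodic points over all extensions `K` of `k` of degree less than `d` tends to `1` as
`H → ∞`. -/
theorem result (N d : ℕ) (hN : 1 ≤ N) (hd : 2 ≤ d) (k : Type) [Field k] [NumberField k]
    (J : Type) [Fintype J] (ω : Module.Basis J ℤ (𝓞 k)) :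
    Tendsto (fun H : ℕ =>
      (({F | F ∈ Box ω N d H ∧ NoPreperiodicPoints d F} :
        Set (Fin (N + 1) → MvPolynomial (Fin (N + 1)) (𝓞 k))).ncard : ℝ) /
      ((Box ω N d H).ncard : ℝ)) atTop (𝓝 1) := by
  apply Pool.Agent.W275.UB.ratioO ω (fun F => NoPreperiodicPoints d F)
  intro ε hε
  apply (Pool.Agent.W275.ND.final N d hN hd (𝓞 k) J ω ε hε).mono
  intro w hw hB
  apply hw
  refine ⟨fun x hx => ?_, fun K _ _ _ hK x hx => ?_⟩
  · exact hB.1 (AlgebraicClosure k)
      ((algebraMap k (AlgebraicClosure k)).comp (algebraMap (𝓞 k) k)) x hx
  · apply hB.2 K ((algebraMap k K).comp (algebraMap (𝓞 k) k)) ?_ x hx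
    have h1 : Module.finrank ℚ k = Fintype.card J := by
      rw [← RingOfIntegers.rank k, Module.finrank_eq_card_basis ω]
    rw [← Module.finrank_mul_finrank ℚ k K, h1, mul_comm]
    exact Nat.mul_lt_mul_of_pos_right hK (by rw [← h1]; exact Module.finrank_pos)

end Pool.Agent.Results.MP_13bc7b_nt.NoLowDegreePoints
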