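import Pool.Agent.W275.UB.All

/-!
# MP_13bc7b_nt: uniform boundedness of preperiodic points for 100% of the endomorphisms of `P^N`

For all `N`, `d ≥ 2` and `D` there is ONE constant `C` such that, for every number field `k`, almost
all endomorphisms of `P^N` of degree `d` with coefficients in the ring of integers of `k` (ordered by
the size of their coefficients) have at most `C` preperiodic points in `P^N(K)`, for all number
fields `K` containing `k` of degree at most `D` over `ℚ`.

Proof. Periods: at a place of good reduction above `p` the iterate `F^W` (`W` depending on `p, D, N`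
only) fixes the reduction of a periodic point and acts on the tangent space by an idempotent; level by
level its period is then a power of `p`, so two places bound the period. Tails: if the Jacobian
determinant at the periodic points is not divisible by a high power of `p`, only the periodic point
itself is mapped to it near it; a non zero integral polynomial in the coefficients controls this, and
it is rarely divisible by high powers of `p`. So for all but a proportion `ε` the types are bounded in
terms of `ε`. A set of positive density of exceptions to a fixed bound gives, by ultraproducts and a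
Hilbert irreducibility theorem, a point over an extension of degree at most `D` of the field generated
by generic coefficients, which is embedded in `p`-adic fields with good reduction.

Parts were proved by helpers 21, 32, 72, 74, 125, 193, 230, 305, 333, 347, 366, 407, 410, 439, 500,
505, 563, 591, 616, 688, 800, 883, 918, 925, 930 (subtasks of helper275); the library `H294UB` of
`PositiveProportion` is used for number fields and for the count of points of bounded type.
-/

set_option autoImplicit false

open MvPolynomial NumberField Filter Topology

namespace Pool.Agent.Results.MP_13bc7b_nt.OneHundredPercent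

/-- The self-map of `K^(N+1)` given by forms `F` with coefficients in the ring of integers of `k`. -/
noncomputable def selfMap {k : Type} [Field k] [NumberField k] (K : Type) [Field K] [Algebra k K]
    {N : ℕ} (F : Fin (N + 1) → MvPolynomial (Fin (N + 1)) (𝓞 k)) (x : Fin (N + 1) → K) :
    Fin (N + 1) → K :=
  fun i => eval x (map ((algebraMap k K).comp (algebraMap (𝓞 k) k)) (F i))

/-- `F` defines an endomorphism of `P^N` over `k`, and for all number fields `K` containing `k` of
degree at most `D` over `ℚ` it has at most `C` preperiodic points in `P^N(K)`: every finite set of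
pairwise non proportional non zero vectors of `K^(N+1)` which are preperiodic up to scalars has at most
`C` elements. -/
def Bounded {k : Type} [Field k] [NumberField k] {N : ℕ} (D C : ℕ)
    (F : Fin (N + 1) → MvPolynomial (Fin (N + 1)) (𝓞 k)) : Prop :=
  (∀ x : Fin (N + 1) → AlgebraicClosure k, selfMap (AlgebraicClosure k) F x = 0 → x = 0) ∧
    ∀ (K : Type) [Field K] [NumberField K] [Algebra k K], Module.finrank ℚ K ≤ D →
      ∀ X : Finset (Fin (N + 1) → K), (∀ x ∈ X, x ≠ 0) →
        (∀ x ∈ X, ∀ y ∈ X, ∀ c : K, x = c • y → x = y) →
        (∀ x ∈ X, ∃ m n : ℕ, m < n ∧ ∃ c : K, c ≠ 0 ∧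
          (selfMap K F)^[n] x = c • (selfMap K F)^[m] x) → X.card ≤ C

/-- The systems of `N + 1` forms of degree `d` in `N + 1` variables over the ring of integers of `k`
all of whose coefficients have coordinates of absolute value at most `H` in the integral basis `ω`. -/
def Box {k : Type} [Field k] [NumberField k] {J : Type} (ω : Module.Basis J ℤ (𝓞 k)) (N d H : ℕ) :
    Set (Fin (N + 1) → MvPolynomial (Fin (N + 1)) (𝓞 k)) :=
  {F | ∀ i, (F i).IsHomogeneous d ∧ ∀ μ j, |ω.repr (coeff μ (F i)) j| ≤ (H : ℤ)}

/-- **Uniform boundedness for 100% of the endomorphisms of `P^N`.** For all `N`, `d ≥ 2` and `D` there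
is a constant `C` such that for every number field `k` and every integral basis `ω` of `k` the
proportion of the systems `F` in the box of size `H` which define endomorphisms of `P^N` with at most
`C` preperiodic points in `P^N(K)`, for all number fields `K` containing `k` with `[K:ℚ] ≤ D`, tends to
`1` as `H → ∞`. -/
theorem result (N d D : ℕ) (hd : 2 ≤ d) : ∃ C : ℕ,
    ∀ (k : Type) [Field k] [NumberField k] (J : Type) [Fintype J] (ω : Module.Basis J ℤ (𝓞 k)),
      Tendsto (fun H : ℕ =>
        (({F | F ∈ Box ω N d H ∧ Bounded D C F} :
          Set (Fin (N + 1) → MvPolynomial (Fin (N + 1)) (𝓞 k))).ncard : ℝ) /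
        ((Box ω N d H).ncard : ℝ)) atTop (𝓝 1) := by
  obtain ⟨C, hC⟩ := Pool.Agent.W275.UB.final_order N d D hd
  refine ⟨C, fun k _ _ J _ ω => ?_⟩
  apply Pool.Agent.W275.UB.ratioO ω (fun F => Bounded D C F)
  intro ε hε
  apply (hC (𝓞 k) J ω ε hε).mono
  intro w hw hB
  apply hw
  refine ⟨?_, ?_⟩
  · exact (hB (AlgebraicClosure k)
      ((algebraMap k (AlgebraicClosure k)).comp (algebraMap (𝓞 k) k))).1
  · intro K _ _ _ hK
    exact (hB K ((algebraMap k K).comp (algebraMap (𝓞 k) k))).2 inferInstance hK

end Pool.Agent.Results.MP_13bc7b_nt.OneHundredPercent
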